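import Pool.Agent.Helper4.Voic.Oper

set_option autoImplicit false

namespace Pool.Agent.Helper4.Voic

open scoped InnerProductSpace ComplexOrder

noncomputable section

section HS

variable {H : Type*} [NormedAddCommGroup H] [InnerProductSpace ℂ H] [CompleteSpace H]

omit [CompleteSpace H] in
theorem hasSum_sq {ι : Type*} (b : HilbertBasis ι ℂ H) (x : H) :
    HasSum (fun i => ‖⟪b i, x⟫_ℂ‖ ^ 2) (‖x‖ ^ 2) := by
  have h := b.hasSum_inner_mul_inner x x
  have h2 := Complex.hasSum_re h
  have e1 : (fun i => (⟪x, b i⟫_ℂ * ⟪b i, x⟫_ℂ).re) = fun i => ‖⟪b i, x⟫_ℂ‖ ^ 2 := by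
    funext i
    rw [← inner_conj_symm x (b i), ← Complex.normSq_eq_conj_mul_self, Complex.ofReal_re,
      Complex.normSq_eq_norm_sq]
  have e2 : (⟪x, x⟫_ℂ).re = ‖x‖ ^ 2 := inner_self_eq_norm_sq (𝕜 := ℂ) x
  rw [e1, e2] at h2
  exact h2

theorem hs_adj {ι ι' : Type*} (b : HilbertBasis ι ℂ H) (e : HilbertBasis ι' ℂ H) (A : H →L[ℂ] H)
    (h : Summable fun i => ‖A (b i)‖ ^ 2) : Summable fun j => ‖(star A) (e j)‖ ^ 2 := by
  have hF : Summable fun p : ι × ι' => ‖⟪e p.2, A (b p.1)⟫_ℂ‖ ^ 2 := by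
    rw [summable_prod_of_nonneg (fun p => sq_nonneg _)]
    constructor
    · intro i
      exact (hasSum_sq e (A (b i))).summable
    · refine h.congr (fun i => ?_)
      exact (hasSum_sq e (A (b i))).tsum_eq.symm
  have hF2 := hF.prod_symm
  rw [summable_prod_of_nonneg (fun p => sq_nonneg _)] at hF2
  refine hF2.2.congr (fun j => ?_)
  have h3 := hasSum_sq b ((star A) (e j))
  rw [← h3.tsum_eq]
  apply tsum_congr
  intro i
  simp only [Prod.fst_swap, Prod.snd_swap]
  congr 1
  rw [← norm_inner_symm, ContinuousLinearMap.star_eq_adjoint,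
    ContinuousLinearMap.adjoint_inner_right]

theorem hs_basis {ι ι' : Type*} (b : HilbertBasis ι ℂ H) (e : HilbertBasis ι' ℂ H) (A : H →L[ℂ] H)
    (h : Summable fun i => ‖A (b i)‖ ^ 2) : Summable fun j => ‖A (e j)‖ ^ 2 := by
  have h1 := hs_adj b e A h
  have h2 := hs_adj e e (star A) h1
  rwa [star_star] at h2

end HS

section Block

variable {H : Type*} [NormedAddCommGroup H] [InnerProductSpace ℂ H] [CompleteSpace H]

/-- the double -/
abbrev KK (H : Type*) := WithLp 2 (H × H)

/-- first inclusion -/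
def J1 : H →L[ℂ] KK H :=
  ((WithLp.prodContinuousLinearEquiv 2 ℂ H H).symm : H × H →L[ℂ] KK H) ∘L
    (ContinuousLinearMap.inl ℂ H H)

/-- second inclusion -/
def J2 : H →L[ℂ] KK H :=
  ((WithLp.prodContinuousLinearEquiv 2 ℂ H H).symm : H × H →L[ℂ] KK H) ∘L
    (ContinuousLinearMap.inr ℂ H H)

/-- first projection -/
def P1 : KK H →L[ℂ] H :=
  (ContinuousLinearMap.fst ℂ H H) ∘L
    ((WithLp.prodContinuousLinearEquiv 2 ℂ H H) : KK H →L[ℂ] H × H)

/-- second projection -/
def P2 : KK H →L[ℂ] H :=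
  (ContinuousLinearMap.snd ℂ H H) ∘L
    ((WithLp.prodContinuousLinearEquiv 2 ℂ H H) : KK H →L[ℂ] H × H)

omit [CompleteSpace H] in
theorem P1J1 (x : H) : P1 (J1 x) = x := rfl
omit [CompleteSpace H] in
theorem P2J1 (x : H) : P2 (J1 x) = 0 := rfl
omit [CompleteSpace H] in
theorem P1J2 (x : H) : P1 (J2 x) = 0 := rfl
omit [CompleteSpace H] in
theorem P2J2 (x : H) : P2 (J2 x) = x := rfl

omit [CompleteSpace H] in
theorem inner_KK (x y : KK H) : ⟪x, y⟫_ℂ = ⟪P1 x, P1 y⟫_ℂ + ⟪P2 x, P2 y⟫_ℂ := rfl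

omit [CompleteSpace H] in
theorem ext_KK {x y : KK H} (h1 : P1 x = P1 y) (h2 : P2 x = P2 y) : x = y := by
  have : (WithLp.ofLp x) = WithLp.ofLp y := Prod.ext h1 h2
  exact (WithLp.ofLp_injective 2) this

omit [CompleteSpace H] in
theorem norm_J1 (x : H) : ‖(J1 x : KK H)‖ = ‖x‖ := by
  have h : ‖(J1 x : KK H)‖ ^ 2 = ‖x‖ ^ 2 := by
    have h1 := inner_self_eq_norm_sq (𝕜 := ℂ) (J1 x : KK H)
    rw [inner_KK, P1J1, P2J1, inner_zero_left, add_zero, inner_self_eq_norm_sq] at h1
    exact h1.symm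
  exact (sq_eq_sq₀ (norm_nonneg _) (norm_nonneg _)).1 h

omit [CompleteSpace H] in
theorem norm_J2 (x : H) : ‖(J2 x : KK H)‖ = ‖x‖ := by
  have h : ‖(J2 x : KK H)‖ ^ 2 = ‖x‖ ^ 2 := by
    have h1 := inner_self_eq_norm_sq (𝕜 := ℂ) (J2 x : KK H)
    rw [inner_KK, P1J2, P2J2, inner_zero_left, zero_add, inner_self_eq_norm_sq] at h1
    exact h1.symm
  exact (sq_eq_sq₀ (norm_nonneg _) (norm_nonneg _)).1 h

omit [CompleteSpace H] in
theorem J1_orthonormal {ι : Type*} {v : ι → H} (hv : Orthonormal ℂ v) :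
    Orthonormal ℂ (fun i => (J1 (v i) : KK H)) := by
  constructor
  · intro i
    rw [norm_J1]
    exact hv.1 i
  · intro i j hij
    simp only [inner_KK, P1J1, P2J1, inner_zero_left, add_zero]
    exact hv.2 hij

/-- block operator -/
def blk (a b c d : H →L[ℂ] H) : KK H →L[ℂ] KK H :=
  J1 ∘L (a ∘L P1 + b ∘L P2) + J2 ∘L (c ∘L P1 + d ∘L P2)

omit [CompleteSpace H] in
theorem P1_blk (a b c d : H →L[ℂ] H) (x : KK H) : P1 (blk a b c d x) = a (P1 x) + b (P2 x) := by
  unfold blk
  simp only [add_apply, ContinuousLinearMap.comp_apply, map_add, P1J1, P1J2, add_zero]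

omit [CompleteSpace H] in
theorem P2_blk (a b c d : H →L[ℂ] H) (x : KK H) : P2 (blk a b c d x) = c (P1 x) + d (P2 x) := by
  unfold blk
  simp only [add_apply, ContinuousLinearMap.comp_apply, map_add, P2J1, P2J2, zero_add]

theorem star_blk (a b c d : H →L[ℂ] H) :
    star (blk a b c d) = blk (star a) (star c) (star b) (star d) := by
  symm
  rw [show star (blk a b c d) = ContinuousLinearMap.adjoint (blk a b c d) from rfl,
    ContinuousLinearMap.eq_adjoint_iff]
  intro x y
  rw [inner_KK, inner_KK, P1_blk, P2_blk, P1_blk, P2_blk]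
  simp only [inner_add_left, inner_add_right, ContinuousLinearMap.star_eq_adjoint,
    ContinuousLinearMap.adjoint_inner_left]
  ring

theorem blk_normal (a b c d : H →L[ℂ] H)
    (h11 : star a * a + star c * c = a * star a + b * star b)
    (h12 : star a * b + star c * d = a * star c + b * star d)
    (h21 : star b * a + star d * c = c * star a + d * star b)
    (h22 : star b * b + star d * d = c * star c + d * star d) :
    star (blk a b c d) * blk a b c d = blk a b c d * star (blk a b c d) := by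
  rw [star_blk]
  ext1 x
  have e11 : ∀ y : H, star a (a y) + star c (c y) = a (star a y) + b (star b y) := fun y => by
    have := congrArg (fun L : H →L[ℂ] H => L y) h11
    exact this
  have e12 : ∀ y : H, star a (b y) + star c (d y) = a (star c y) + b (star d y) := fun y => by
    have := congrArg (fun L : H →L[ℂ] H => L y) h12
    exact this
  have e21 : ∀ y : H, star b (a y) + star d (c y) = c (star a y) + d (star b y) := fun y => by
    have := congrArg (fun L : H →L[ℂ] H => L y) h21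
    exact this
  have e22 : ∀ y : H, star b (b y) + star d (d y) = c (star c y) + d (star d y) := fun y => by
    have := congrArg (fun L : H →L[ℂ] H => L y) h22
    exact this
  rw [mapp, mapp]
  apply ext_KK
  · rw [P1_blk, P1_blk, P1_blk, P2_blk, P1_blk, P2_blk]
    simp only [map_add]
    have := e11 (P1 x)
    have := e12 (P2 x)
    calc _ = (star a (a (P1 x)) + star c (c (P1 x))) + (star a (b (P2 x)) + star c (d (P2 x))) := by
            abel
      _ = _ := by rw [e11, e12]; abel
  · rw [P2_blk, P2_blk, P1_blk, P2_blk, P1_blk, P2_blk]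
    simp only [map_add]
    calc _ = (star b (a (P1 x)) + star d (c (P1 x))) + (star b (b (P2 x)) + star d (d (P2 x))) := by
            abel
      _ = _ := by rw [e21, e22]; abel

end Block

end

end Pool.Agent.Helper4.Voic
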