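import Mathlib

set_option autoImplicit false

namespace Pool.Agent.Helper4.Voic

open scoped InnerProductSpace ComplexOrder

noncomputable section

/-- Shifted Chebyshev polynomials of the second kind: cU n = U_{n-1}. -/
def cU : ℕ → ℝ → ℝ
  | 0, _ => 0
  | 1, _ => 1
  | (n+2), x => 2 * x * cU (n+1) x - cU n x

/-- Chebyshev polynomials of the first kind. -/
def cT : ℕ → ℝ → ℝ
  | 0, _ => 1
  | 1, x => x
  | (n+2), x => 2 * x * cT (n+1) x - cT n x

/-- The cut-off function. -/
def chi (x : ℝ) : ℝ := max (1 - x ^ 2) 0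

theorem cU_zero (x : ℝ) : cU 0 x = 0 := by simp [cU]
theorem cU_one (x : ℝ) : cU 1 x = 1 := by simp [cU]
theorem cU_add_two (n : ℕ) (x : ℝ) : cU (n+2) x = 2 * x * cU (n+1) x - cU n x := by
  simp [cU]
theorem cT_zero (x : ℝ) : cT 0 x = 1 := by simp [cT]
theorem cT_one (x : ℝ) : cT 1 x = x := by simp [cT]
theorem cT_add_two (n : ℕ) (x : ℝ) : cT (n+2) x = 2 * x * cT (n+1) x - cT n x := by
  simp [cT]

theorem cU_cont (n : ℕ) : Continuous (cU n) := by
  induction n using Nat.twoStepInduction with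
  | zero => exact (continuous_const : Continuous fun _ : ℝ => (0:ℝ)).congr (fun x => (cU_zero x).symm)
  | one => exact (continuous_const : Continuous fun _ : ℝ => (1:ℝ)).congr (fun x => (cU_one x).symm)
  | more n h1 h2 =>
    have : Continuous fun x : ℝ => 2 * x * cU (n+1) x - cU n x := by fun_prop
    exact this.congr (fun x => (cU_add_two n x).symm)

theorem cT_cont (n : ℕ) : Continuous (cT n) := by
  induction n using Nat.twoStepInduction with
  | zero => exact (continuous_const : Continuous fun _ : ℝ => (1:ℝ)).congr (fun x => (cT_zero x).symm)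
  | one => exact (continuous_id : Continuous fun x : ℝ => x).congr (fun x => (cT_one x).symm)
  | more n h1 h2 =>
    have : Continuous fun x : ℝ => 2 * x * cT (n+1) x - cT n x := by fun_prop
    exact this.congr (fun x => (cT_add_two n x).symm)

theorem chi_cont : Continuous chi := by
  unfold chi
  fun_prop

theorem chi_nonneg (x : ℝ) : 0 ≤ chi x := le_max_right _ _

theorem chi_le_one (x : ℝ) : chi x ≤ 1 := by
  unfold chi
  apply max_le
  · nlinarith [sq_nonneg x]
  · norm_num

theorem cU_cos (n : ℕ) (θ : ℝ) : cU n (Real.cos θ) * Real.sin θ = Real.sin (n * θ) := by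
  induction n using Nat.twoStepInduction with
  | zero => simp [cU_zero]
  | one => simp [cU_one]
  | more n h1 h2 =>
    rw [cU_add_two, sub_mul, h1, mul_assoc, h2]
    push_cast
    have e1 : ((n:ℝ) + 2) * θ = ((n:ℝ)+1) * θ + θ := by ring
    have e2 : (n:ℝ) * θ = ((n:ℝ)+1) * θ - θ := by ring
    rw [e1, e2, Real.sin_add, Real.sin_sub]
    ring

theorem cT_cos (n : ℕ) (θ : ℝ) : cT n (Real.cos θ) = Real.cos (n * θ) := by
  induction n using Nat.twoStepInduction with
  | zero => simp [cT_zero]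
  | one => simp [cT_one]
  | more n h1 h2 =>
    rw [cT_add_two, h1, h2]
    push_cast
    have e1 : ((n:ℝ) + 2) * θ = ((n:ℝ)+1) * θ + θ := by ring
    have e2 : (n:ℝ) * θ = ((n:ℝ)+1) * θ - θ := by ring
    rw [e1, e2, Real.cos_add, Real.cos_sub]
    ring

theorem chi_cU_le (n : ℕ) (x : ℝ) : |chi x * cU n x| ≤ 1 := by
  by_cases h : x ^ 2 ≤ 1
  · have hx1 : -1 ≤ x := by nlinarith
    have hx2 : x ≤ 1 := by nlinarith
    have hc : chi x = 1 - x ^ 2 := by unfold chi; exact max_eq_left (by linarith)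
    obtain ⟨θ, hθ⟩ : ∃ θ, Real.cos θ = x := ⟨Real.arccos x, Real.cos_arccos hx1 hx2⟩
    rw [hc, ← hθ]
    have : (1 - Real.cos θ ^ 2) * cU n (Real.cos θ) = Real.sin θ * Real.sin (n * θ) := by
      rw [← cU_cos, ← Real.sin_sq]
      ring
    rw [this, abs_mul]
    exact mul_le_one₀ (Real.abs_sin_le_one _) (abs_nonneg _) (Real.abs_sin_le_one _)
  · have hc : chi x = 0 := by unfold chi; exact max_eq_right (by linarith)
    rw [hc]; simp

theorem chi_cT_le (n : ℕ) (x : ℝ) : |chi x * cT n x| ≤ 1 := by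
  by_cases h : x ^ 2 ≤ 1
  · have hx1 : -1 ≤ x := by nlinarith
    have hx2 : x ≤ 1 := by nlinarith
    obtain ⟨θ, hθ⟩ : ∃ θ, Real.cos θ = x := ⟨Real.arccos x, Real.cos_arccos hx1 hx2⟩
    rw [abs_mul, abs_of_nonneg (chi_nonneg x)]
    have h2 : |cT n x| ≤ 1 := by
      rw [← hθ, cT_cos]
      exact Real.abs_cos_le_one _
    exact mul_le_one₀ (chi_le_one x) (abs_nonneg _) h2
  · have hc : chi x = 0 := by unfold chi; exact max_eq_right (by linarith)
    rw [hc]; simp

variable {K : Type*} [NormedAddCommGroup K] [InnerProductSpace ℂ K] [CompleteSpace K]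

/-- operators -/
def opU (A : K →L[ℂ] K) (n : ℕ) : K →L[ℂ] K := cfc (cU n) A
def opT (A : K →L[ℂ] K) (n : ℕ) : K →L[ℂ] K := cfc (cT n) A
def opC (A : K →L[ℂ] K) : K →L[ℂ] K := cfc chi A

variable {A B : K →L[ℂ] K}

theorem opU_zero : opU A 0 = 0 := by
  unfold opU
  have : cU 0 = fun _ => (0:ℝ) := funext cU_zero
  rw [this]
  exact cfc_const_zero ℝ A

theorem opU_one (hA : IsSelfAdjoint A) : opU A 1 = 1 := by
  unfold opU
  have : cU 1 = fun _ => (1:ℝ) := funext cU_one
  rw [this]
  exact cfc_const_one ℝ A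

theorem opT_zero (hA : IsSelfAdjoint A) : opT A 0 = 1 := by
  unfold opT
  have : cT 0 = fun _ => (1:ℝ) := funext cT_zero
  rw [this]
  exact cfc_const_one ℝ A

theorem opT_one (hA : IsSelfAdjoint A) : opT A 1 = A := by
  unfold opT
  have : cT 1 = fun x => x := funext cT_one
  rw [this]
  exact cfc_id' ℝ A

theorem opU_add_two (hA : IsSelfAdjoint A) (n : ℕ) :
    opU A (n+2) = (2:ℝ) • (A * opU A (n+1)) - opU A n := by
  unfold opU
  have h1 : cU (n+2) = fun x => (2:ℝ) • (x * cU (n+1) x) - cU n x := by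
    funext x
    rw [cU_add_two, smul_eq_mul]; ring
  have hc1 := cU_cont (n+1)
  have hc0 := cU_cont n
  rw [h1, cfc_sub (fun x => (2:ℝ) • (x * cU (n+1) x)) (cU n) A (by fun_prop) (by fun_prop),
    cfc_smul (2:ℝ) (fun x => x * cU (n+1) x) A (by fun_prop),
    cfc_mul (fun x => x) (cU (n+1)) A (by fun_prop) (by fun_prop), cfc_id' ℝ A]

theorem opT_add_two (hA : IsSelfAdjoint A) (n : ℕ) :
    opT A (n+2) = (2:ℝ) • (A * opT A (n+1)) - opT A n := by
  unfold opT
  have h1 : cT (n+2) = fun x => (2:ℝ) • (x * cT (n+1) x) - cT n x := by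
    funext x
    rw [cT_add_two, smul_eq_mul]; ring
  have hc1 := cT_cont (n+1)
  have hc0 := cT_cont n
  rw [h1, cfc_sub (fun x => (2:ℝ) • (x * cT (n+1) x)) (cT n) A (by fun_prop) (by fun_prop),
    cfc_smul (2:ℝ) (fun x => x * cT (n+1) x) A (by fun_prop),
    cfc_mul (fun x => x) (cT (n+1)) A (by fun_prop) (by fun_prop), cfc_id' ℝ A]

theorem norm_opC_opU_le (n : ℕ) : ‖opC A * opU A n‖ ≤ 1 := by
  unfold opC opU
  have hc0 := cU_cont n
  have hc1 := chi_cont
  rw [← cfc_mul chi (cU n) A (by fun_prop) (by fun_prop)]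
  apply norm_cfc_le zero_le_one
  intro x _
  exact chi_cU_le n x

theorem norm_opC_opT_le (n : ℕ) : ‖opC A * opT A n‖ ≤ 1 := by
  unfold opC opT
  have hc0 := cT_cont n
  have hc1 := chi_cont
  rw [← cfc_mul chi (cT n) A (by fun_prop) (by fun_prop)]
  apply norm_cfc_le zero_le_one
  intro x _
  exact chi_cT_le n x

theorem norm_opC_le : ‖opC A‖ ≤ 1 := by
  unfold opC
  apply norm_cfc_le zero_le_one
  intro x _
  rw [Real.norm_eq_abs, abs_of_nonneg (chi_nonneg x)]
  exact chi_le_one x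

theorem opC_commute (h : Commute A B) : Commute (opC A) (opC B) := by
  unfold opC
  exact ((h.cfc_real chi).symm.cfc_real chi).symm

theorem opT_commute (h : Commute A B) (m n : ℕ) : Commute (opT A m) (opT B n) := by
  unfold opT
  exact ((h.cfc_real _).symm.cfc_real _).symm

theorem opC_opT_commute (h : Commute A B) (n : ℕ) : Commute (opC A) (opT B n) := by
  unfold opT opC
  exact ((h.cfc_real _).symm.cfc_real _).symm

theorem opC_nonneg : 0 ≤ opC A := cfc_nonneg (fun x _ => chi_nonneg x)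

theorem opC_le_one (hA : IsSelfAdjoint A) : opC A ≤ 1 := by
  unfold opC
  exact cfc_le_one chi A (fun x _ => chi_le_one x)

theorem one_sub_sq_le (hA : IsSelfAdjoint A) : 1 - A * A ≤ opC A := by
  have h1 : (1 - A * A : K →L[ℂ] K) = cfc (fun x : ℝ => 1 - x * x) A := by
    rw [cfc_sub (fun _ => (1:ℝ)) (fun x => x * x) A (by fun_prop) (by fun_prop),
      cfc_const_one ℝ A, cfc_mul (fun x : ℝ => x) (fun x => x) A (by fun_prop) (by fun_prop),
      cfc_id' ℝ A]
  rw [h1]
  unfold opC
  have := chi_cont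
  apply cfc_mono (fun x _ => ?_) (by fun_prop) (by fun_prop)
  unfold chi
  exact le_trans (le_of_eq (by ring)) (le_max_left _ _)

end

end Pool.Agent.Helper4.Voic
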