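import Pool.Agent.Helper4.Voic.Line

set_option autoImplicit false

namespace Pool.Agent.Helper4.Voic

open scoped InnerProductSpace ComplexOrder

noncomputable section

variable {K : Type*} [NormedAddCommGroup K] [InnerProductSpace ℂ K] [CompleteSpace K]
variable {A B : K →L[ℂ] K}

/-- the gauge: minus one on the quadrant -/
def g (p : ℤ × ℤ) : ℝ := if 1 ≤ p.1 ∧ 1 ≤ p.2 then -1 else 1

/-- horizontal defect -/
def dx (A : K →L[ℂ] K) (v : ℤ × ℤ → K) (p : ℤ × ℤ) : ℝ :=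
  ‖defect A (fun i => v (i, p.2)) p.1‖

/-- vertical defect -/
def dy (B : K →L[ℂ] K) (v : ℤ × ℤ → K) (p : ℤ × ℤ) : ℝ :=
  ‖defect B (fun i => g (p.1, i) • v (p.1, i)) p.2‖

/-- total defect -/
def DD (A B : K →L[ℂ] K) (v : ℤ × ℤ → K) (p : ℤ × ℤ) : ℝ := dx A v p + dy B v p

theorem DD_nonneg (v : ℤ × ℤ → K) (p : ℤ × ℤ) : 0 ≤ DD A B v p :=
  add_nonneg (norm_nonneg _) (norm_nonneg _)

theorem dx_le (v : ℤ × ℤ → K) (p : ℤ × ℤ) : dx A v p ≤ DD A B v p :=
  le_add_of_nonneg_right (norm_nonneg _)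

theorem dy_le (v : ℤ × ℤ → K) (p : ℤ × ℤ) : dy B v p ≤ DD A B v p :=
  le_add_of_nonneg_left (norm_nonneg _)

/-- the sum of the twelve shifted defects -/
def twelve (D : ℤ × ℤ → ℝ) (j k m : ℤ) (i : ℤ) : ℝ :=
  (D (j, k+i) + D (j, k-i)) + (D (j+i, k+m) + D (j-i, k+m)) + (D (j+i, k-m) + D (j-i, k-m))
  + (D (j+i, k) + D (j-i, k)) + (D (j+m, k+i) + D (j+m, k-i)) + (D (j-m, k+i) + D (j-m, k-i))

theorem norm_opC_apply_le (x : K) : ‖opC A x‖ ≤ ‖x‖ := by
  refine ((opC A).le_opNorm x).trans ?_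
  calc ‖opC A‖ * ‖x‖ ≤ 1 * ‖x‖ := mul_le_mul_of_nonneg_right norm_opC_le (norm_nonneg _)
    _ = ‖x‖ := one_mul _

theorem norm_opC_opT_apply_le (n : ℕ) (x : K) : ‖opC A (opT A n x)‖ ≤ ‖x‖ := by
  refine ((opC A * opT A n).le_opNorm x).trans ?_
  calc ‖opC A * opT A n‖ * ‖x‖ ≤ 1 * ‖x‖ :=
        mul_le_mul_of_nonneg_right (norm_opC_opT_le n) (norm_nonneg _)
    _ = ‖x‖ := one_mul _

theorem main_ineq (hA : IsSelfAdjoint A) (hB : IsSelfAdjoint B) (hAB : Commute A B)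
    (v : ℤ × ℤ → K) (j k : ℤ) (m : ℕ) (hj : j ≤ 0) (hk : k ≤ 0) (hjm : 1 ≤ j + m)
    (hkm : 1 ≤ k + m) :
    ‖opC A (opC B (v (j + m, k + m)))‖
      ≤ ∑ i ∈ Finset.range m, 2 * twelve (DD A B v) j k m i := by
  set C := opC A with hC
  set E := opC B with hE
  set PA := opT A m with hPA
  set PB := opT B m with hPB
  have hCE : ∀ x, C (E x) = E (C x) := fun x => by
    have := congrArg (fun Z : K →L[ℂ] K => Z x) (opC_commute hAB).eq
    simpa [mapp] using this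
  have hPP : ∀ x, PA (PB x) = PB (PA x) := fun x => by
    have := congrArg (fun Z : K →L[ℂ] K => Z x) (opT_commute hAB m m).eq
    simpa [mapp] using this
  have hCPB : ∀ x, C (PB x) = PB (C x) := fun x => by
    have := congrArg (fun Z : K →L[ℂ] K => Z x) (opC_opT_commute hAB m).eq
    simpa [mapp] using this
  have hEPA : ∀ x, E (PA x) = PA (E x) := fun x => by
    have := congrArg (fun Z : K →L[ℂ] K => Z x) (opC_opT_commute hAB.symm m).eq
    simpa [mapp] using this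
  -- gauge values
  have g1 : ∀ y : ℤ, g (j, y) = 1 := fun y => by
    unfold g; rw [if_neg]; rintro ⟨h, _⟩; simp only at h; omega
  have g2 : ∀ x : ℤ, g (x, k) = 1 := fun y => by
    unfold g; rw [if_neg]; rintro ⟨_, h⟩; simp only at h; omega
  have g3 : g (j+m, k+m) = -1 := by
    unfold g; rw [if_pos]; exact ⟨hjm, hkm⟩
  have g4 : ∀ x : ℤ, g (x, k-m) = 1 := fun y => by
    unfold g; rw [if_neg]; rintro ⟨_, h⟩; simp only at h; omega
  have g5 : ∀ y : ℤ, g (j-m, y) = 1 := fun y => by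
    unfold g; rw [if_neg]; rintro ⟨h, _⟩; simp only at h; omega
  set a0 := (1/2:ℝ) • (v (j,k+m) + v (j,k-m)) - PB (v (j,k)) with ha0
  set bp := (1/2:ℝ) • (v (j+m,k+m) + v (j-m,k+m)) - PA (v (j,k+m)) with hbp
  set bm := (1/2:ℝ) • (v (j+m,k-m) + v (j-m,k-m)) - PA (v (j,k-m)) with hbm
  set c0 := (1/2:ℝ) • (v (j+m,k) + v (j-m,k)) - PA (v (j,k)) with hc0
  set ep := (1/2:ℝ) • (-v (j+m,k+m) + v (j+m,k-m)) - PB (v (j+m,k)) with hep
  set em := (1/2:ℝ) • (v (j-m,k+m) + v (j-m,k-m)) - PB (v (j-m,k)) with hem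
  have na : ‖E a0‖ ≤ ∑ i ∈ Finset.range m, (dy B v (j, k+i) + dy B v (j, k-i)) := by
    have := line_bound hB (fun i => g (j,i) • v (j,i)) k m
    simp only [g1, one_smul] at this
    refine this.trans (le_of_eq (Finset.sum_congr rfl fun i _ => ?_))
    unfold dy
    simp only [g1, one_smul]
  have nbp : ‖C bp‖ ≤ ∑ i ∈ Finset.range m, (dx A v (j+i, k+m) + dx A v (j-i, k+m)) :=
    line_bound hA (fun i => v (i, k+m)) j m
  have nbm : ‖C bm‖ ≤ ∑ i ∈ Finset.range m, (dx A v (j+i, k-m) + dx A v (j-i, k-m)) :=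
    line_bound hA (fun i => v (i, k-m)) j m
  have nc : ‖C c0‖ ≤ ∑ i ∈ Finset.range m, (dx A v (j+i, k) + dx A v (j-i, k)) :=
    line_bound hA (fun i => v (i, k)) j m
  have nep : ‖E ep‖ ≤ ∑ i ∈ Finset.range m, (dy B v (j+m, k+i) + dy B v (j+m, k-i)) := by
    have := line_bound hB (fun i => g (j+m,i) • v (j+m,i)) k m
    simp only [g2, g3, g4, one_smul, neg_smul] at this
    exact this
  have nem : ‖E em‖ ≤ ∑ i ∈ Finset.range m, (dy B v (j-m, k+i) + dy B v (j-m, k-i)) := by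
    have := line_bound hB (fun i => g (j-m,i) • v (j-m,i)) k m
    simp only [g5, one_smul] at this
    refine this.trans (le_of_eq (Finset.sum_congr rfl fun i _ => ?_))
    unfold dy
    simp only [g5, one_smul]
  have hsA : ∀ (c : ℝ) (z : K), PA (c • z) = c • PA z := fun c z => by
    rw [← Complex.coe_smul, map_smul, Complex.coe_smul]
  have hsB : ∀ (c : ℝ) (z : K), PB (c • z) = c • PB z := fun c z => by
    rw [← Complex.coe_smul, map_smul, Complex.coe_smul]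
  have hsC : ∀ (c : ℝ) (z : K), C (c • z) = c • C z := fun c z => by
    rw [← Complex.coe_smul, map_smul, Complex.coe_smul]
  have hsE : ∀ (c : ℝ) (z : K), E (c • z) = c • E z := fun c z => by
    rw [← Complex.coe_smul, map_smul, Complex.coe_smul]
  have hid : v (j+m,k+m) = bp + bm + (2:ℝ) • PA a0 - ep - em - (2:ℝ) • PB c0 := by
    have e := hPP (v (j,k))
    simp only [ha0, hbp, hbm, hc0, hep, hem, map_sub, map_add, hsA, hsB]
    rw [e]
    module
  have key : C (E (v (j+m,k+m))) = E (C bp) + E (C bm) + (2:ℝ) • C (PA (E a0)) - C (E ep)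
      - C (E em) - (2:ℝ) • E (PB (C c0)) := by
    rw [hid]
    simp only [map_sub, map_add, hsC, hsE]
    rw [hCE bp, hCE bm, hEPA a0, hCE (PB c0), hCPB c0]
  rw [key]
  have n1 : ‖E (C bp)‖ ≤ ‖C bp‖ := norm_opC_apply_le _
  have n2 : ‖E (C bm)‖ ≤ ‖C bm‖ := norm_opC_apply_le _
  have n3 : ‖C (PA (E a0))‖ ≤ ‖E a0‖ := norm_opC_opT_apply_le _ _
  have n4 : ‖C (E ep)‖ ≤ ‖E ep‖ := norm_opC_apply_le _
  have n5 : ‖C (E em)‖ ≤ ‖E em‖ := norm_opC_apply_le _
  have n6 : ‖E (PB (C c0))‖ ≤ ‖C c0‖ := norm_opC_opT_apply_le _ _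
  have t1 : ‖E (C bp) + E (C bm) + (2:ℝ) • C (PA (E a0)) - C (E ep)
      - C (E em) - (2:ℝ) • E (PB (C c0))‖ ≤ ‖E (C bp)‖ + ‖E (C bm)‖ + 2 * ‖C (PA (E a0))‖
      + ‖C (E ep)‖ + ‖C (E em)‖ + 2 * ‖E (PB (C c0))‖ := by
    have s3 : ‖(2:ℝ) • C (PA (E a0))‖ = 2 * ‖C (PA (E a0))‖ := by
      rw [norm_smul]; norm_num
    have s6 : ‖(2:ℝ) • E (PB (C c0))‖ = 2 * ‖E (PB (C c0))‖ := by
      rw [norm_smul]; norm_num
    rw [← s3, ← s6]
    refine (norm_sub_le _ _).trans (add_le_add ?_ le_rfl)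
    refine (norm_sub_le _ _).trans (add_le_add ?_ le_rfl)
    refine (norm_sub_le _ _).trans (add_le_add ?_ le_rfl)
    refine (norm_add_le _ _).trans (add_le_add ?_ le_rfl)
    exact norm_add_le _ _
  refine t1.trans ?_
  have hsum : ∑ i ∈ Finset.range m, 2 * twelve (DD A B v) j k m i
      = 2 * ∑ i ∈ Finset.range m, (DD A B v (j, k+i) + DD A B v (j, k-i))
      + 2 * ∑ i ∈ Finset.range m, (DD A B v (j+i, k+m) + DD A B v (j-i, k+m))
      + 2 * ∑ i ∈ Finset.range m, (DD A B v (j+i, k-m) + DD A B v (j-i, k-m))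
      + 2 * ∑ i ∈ Finset.range m, (DD A B v (j+i, k) + DD A B v (j-i, k))
      + 2 * ∑ i ∈ Finset.range m, (DD A B v (j+m, k+i) + DD A B v (j+m, k-i))
      + 2 * ∑ i ∈ Finset.range m, (DD A B v (j-m, k+i) + DD A B v (j-m, k-i)) := by
    rw [Finset.mul_sum, Finset.mul_sum, Finset.mul_sum, Finset.mul_sum, Finset.mul_sum,
      Finset.mul_sum, ← Finset.sum_add_distrib, ← Finset.sum_add_distrib,
      ← Finset.sum_add_distrib, ← Finset.sum_add_distrib, ← Finset.sum_add_distrib]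
    apply Finset.sum_congr rfl
    intro i _
    unfold twelve
    ring
  rw [hsum]
  have m1 : ∑ i ∈ Finset.range m, (dy B v (j, k+i) + dy B v (j, k-i))
      ≤ ∑ i ∈ Finset.range m, (DD A B v (j, k+i) + DD A B v (j, k-i)) :=
    Finset.sum_le_sum fun i _ => add_le_add (dy_le _ _) (dy_le _ _)
  have m2 : ∑ i ∈ Finset.range m, (dx A v (j+i, k+m) + dx A v (j-i, k+m))
      ≤ ∑ i ∈ Finset.range m, (DD A B v (j+i, k+m) + DD A B v (j-i, k+m)) :=
    Finset.sum_le_sum fun i _ => add_le_add (dx_le _ _) (dx_le _ _)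
  have m3 : ∑ i ∈ Finset.range m, (dx A v (j+i, k-m) + dx A v (j-i, k-m))
      ≤ ∑ i ∈ Finset.range m, (DD A B v (j+i, k-m) + DD A B v (j-i, k-m)) :=
    Finset.sum_le_sum fun i _ => add_le_add (dx_le _ _) (dx_le _ _)
  have m4 : ∑ i ∈ Finset.range m, (dx A v (j+i, k) + dx A v (j-i, k))
      ≤ ∑ i ∈ Finset.range m, (DD A B v (j+i, k) + DD A B v (j-i, k)) :=
    Finset.sum_le_sum fun i _ => add_le_add (dx_le _ _) (dx_le _ _)
  have m5 : ∑ i ∈ Finset.range m, (dy B v (j+m, k+i) + dy B v (j+m, k-i))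
      ≤ ∑ i ∈ Finset.range m, (DD A B v (j+m, k+i) + DD A B v (j+m, k-i)) :=
    Finset.sum_le_sum fun i _ => add_le_add (dy_le _ _) (dy_le _ _)
  have m6 : ∑ i ∈ Finset.range m, (dy B v (j-m, k+i) + dy B v (j-m, k-i))
      ≤ ∑ i ∈ Finset.range m, (DD A B v (j-m, k+i) + DD A B v (j-m, k-i)) :=
    Finset.sum_le_sum fun i _ => add_le_add (dy_le _ _) (dy_le _ _)
  linarith [norm_nonneg (C bp), norm_nonneg (C bm), norm_nonneg (E ep), norm_nonneg (E em)]

end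

end Pool.Agent.Helper4.Voic
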