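import Pool.Agent.Helper4.Voic.Lower

set_option autoImplicit false

namespace Pool.Agent.Helper4.Voic

open scoped InnerProductSpace ComplexOrder

noncomputable section

variable {K : Type*} [NormedAddCommGroup K] [InnerProductSpace ℂ K] [CompleteSpace K]
variable {A B : K →L[ℂ] K}

/-- the starting region -/
def RR (d : ℤ) : Finset (ℤ × ℤ) := Finset.Icc (-3*d) (-d-2) ×ˢ Finset.Icc (-3*d) (-d-2)

theorem mem_RR {d : ℤ} {p : ℤ × ℤ} : p ∈ RR d ↔
    (-3*d ≤ p.1 ∧ p.1 ≤ -d-2) ∧ (-3*d ≤ p.2 ∧ p.2 ≤ -d-2) := by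
  unfold RR
  rw [Finset.mem_product, Finset.mem_Icc, Finset.mem_Icc]

theorem card_RR (d : ℕ) (hd : 1 ≤ d) : (((RR d).card : ℕ) : ℝ) = (2 * (d:ℝ) - 1) ^ 2 := by
  unfold RR
  rw [Finset.card_product, Int.card_Icc]
  have : (-(d:ℤ) - 2 + 1 - -3 * (d:ℤ)).toNat = 2 * d - 1 := by omega
  rw [this]
  have h2 : ((2 * d - 1 : ℕ) : ℝ) = 2 * (d:ℝ) - 1 := by
    rw [Nat.cast_sub (by omega)]; push_cast; ring
  rw [Nat.cast_mul, h2]
  ring

theorem twelve_sum (D : ℤ × ℤ → ℝ) (hD : ∀ p, 0 ≤ D p) (d : ℕ) (hd : 1 ≤ d) (ε : ℝ)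
    (hε : 0 ≤ ε)
    (ht : ∀ S : Finset (ℤ × ℤ), (∀ p ∈ S, Far d p) → ∑ p ∈ S, D p ^ 2 ≤ ε ^ 2)
    (s1 s2 : ℤ) (h1 : 0 ≤ s1) (h1' : s1 ≤ 2) (h2 : 0 ≤ s2) (h2' : s2 ≤ 2) (i : ℤ) :
    ∑ p ∈ RR d, twelve D (p.1+s1) (p.2+s2) (4*d) i ≤ 12 * (ε * Real.sqrt (RR d).card) := by
  have piece : ∀ a b : ℤ, (∀ p ∈ RR d, Far d (p.1+s1+a, p.2+s2+b)) →
      ∑ p ∈ RR d, D (p.1+s1+a, p.2+s2+b) ≤ ε * Real.sqrt (RR d).card := by
    intro a b hfar
    have := shift_sum D hD d ε hε ht (RR d) (s1+a, s2+b) (by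
      intro p hp
      have := hfar p hp
      have e : p + (s1+a, s2+b) = (p.1+s1+a, p.2+s2+b) := by
        ext <;> simp <;> ring
      rw [e]; exact this)
    refine le_trans (le_of_eq (Finset.sum_congr rfl fun p _ => ?_)) this
    congr 1
    ext <;> simp <;> ring
  have farL : ∀ b : ℤ, ∀ p ∈ RR d, Far d (p.1+s1+0, p.2+s2+b) := by
    intro b p hp
    rw [mem_RR] at hp
    left
    simp only
    rw [abs_of_nonpos (by omega)]
    omega
  have farD : ∀ a : ℤ, ∀ p ∈ RR d, Far d (p.1+s1+a, p.2+s2+0) := by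
    intro a p hp
    rw [mem_RR] at hp
    right
    simp only
    rw [abs_of_nonpos (by omega)]
    omega
  have farU : ∀ a : ℤ, ∀ p ∈ RR d, Far d (p.1+s1+a, p.2+s2+4*d) := by
    intro a p hp
    rw [mem_RR] at hp
    right
    simp only
    rw [abs_of_nonneg (by omega)]
    omega
  have farDD : ∀ a : ℤ, ∀ p ∈ RR d, Far d (p.1+s1+a, p.2+s2+(-(4*d))) := by
    intro a p hp
    rw [mem_RR] at hp
    right
    simp only
    rw [abs_of_nonpos (by omega)]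
    omega
  have farR : ∀ b : ℤ, ∀ p ∈ RR d, Far d (p.1+s1+4*d, p.2+s2+b) := by
    intro a p hp
    rw [mem_RR] at hp
    left
    simp only
    rw [abs_of_nonneg (by omega)]
    omega
  have farLL : ∀ b : ℤ, ∀ p ∈ RR d, Far d (p.1+s1+(-(4*d)), p.2+s2+b) := by
    intro a p hp
    rw [mem_RR] at hp
    left
    simp only
    rw [abs_of_nonpos (by omega)]
    omega
  have q1 := piece 0 i (farL _)
  have q2 := piece 0 (-i) (farL _)
  have q3 := piece i (4*d) (farU _)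
  have q4 := piece (-i) (4*d) (farU _)
  have q5 := piece i (-(4*d)) (farDD _)
  have q6 := piece (-i) (-(4*d)) (farDD _)
  have q7 := piece i 0 (farD _)
  have q8 := piece (-i) 0 (farD _)
  have q9 := piece (4*d) i (farR _)
  have q10 := piece (4*d) (-i) (farR _)
  have q11 := piece (-(4*d)) i (farLL _)
  have q12 := piece (-(4*d)) (-i) (farLL _)
  have hsplit : ∑ p ∈ RR d, twelve D (p.1+s1) (p.2+s2) (4*d) i
      = (∑ p ∈ RR d, D (p.1+s1+0, p.2+s2+i)) + (∑ p ∈ RR d, D (p.1+s1+0, p.2+s2+(-i)))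
      + (∑ p ∈ RR d, D (p.1+s1+i, p.2+s2+4*d)) + (∑ p ∈ RR d, D (p.1+s1+(-i), p.2+s2+4*d))
      + (∑ p ∈ RR d, D (p.1+s1+i, p.2+s2+(-(4*d))))
      + (∑ p ∈ RR d, D (p.1+s1+(-i), p.2+s2+(-(4*d))))
      + (∑ p ∈ RR d, D (p.1+s1+i, p.2+s2+0)) + (∑ p ∈ RR d, D (p.1+s1+(-i), p.2+s2+0))
      + (∑ p ∈ RR d, D (p.1+s1+4*d, p.2+s2+i)) + (∑ p ∈ RR d, D (p.1+s1+4*d, p.2+s2+(-i)))
      + (∑ p ∈ RR d, D (p.1+s1+(-(4*d)), p.2+s2+i))
      + (∑ p ∈ RR d, D (p.1+s1+(-(4*d)), p.2+s2+(-i))) := by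
    simp only [← Finset.sum_add_distrib]
    apply Finset.sum_congr rfl
    intro p _
    unfold twelve
    simp only [add_zero, ← sub_eq_add_neg]
    ring
  rw [hsplit]
  linarith

theorem F_sum (hA : IsSelfAdjoint A) (hB : IsSelfAdjoint B) (hAB : Commute A B)
    (v : ℤ × ℤ → K) (d : ℕ) (hd : 1 ≤ d) (ε : ℝ) (hε : 0 ≤ ε)
    (ht : ∀ S : Finset (ℤ × ℤ), (∀ p ∈ S, Far d p) → ∑ p ∈ S, DD A B v p ^ 2 ≤ ε ^ 2)
    (s1 s2 : ℤ) (h1 : 0 ≤ s1) (h1' : s1 ≤ 2) (h2 : 0 ≤ s2) (h2' : s2 ≤ 2) :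
    ∑ p ∈ RR d, FF A B v (p.1+s1+4*d, p.2+s2+4*d)
      ≤ 96 * d * (ε * Real.sqrt (RR d).card) := by
  have hpt : ∀ p ∈ RR d, FF A B v (p.1+s1+4*d, p.2+s2+4*d)
      ≤ ∑ i ∈ Finset.range (4*d), 2 * twelve (DD A B v) (p.1+s1) (p.2+s2) (4*d) i := by
    intro p hp
    rw [mem_RR] at hp
    have := main_ineq hA hB hAB v (p.1+s1) (p.2+s2) (4*d) (by omega) (by omega)
      (by push_cast; omega) (by push_cast; omega)
    push_cast at this
    exact this
  refine (Finset.sum_le_sum hpt).trans ?_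
  rw [Finset.sum_comm]
  have hb : ∀ i ∈ Finset.range (4*d), ∑ p ∈ RR d, 2 * twelve (DD A B v) (p.1+s1) (p.2+s2) (4*d) i
      ≤ 24 * (ε * Real.sqrt (RR d).card) := by
    intro i _
    rw [← Finset.mul_sum]
    have := twelve_sum (DD A B v) (DD_nonneg v) d hd ε hε ht s1 s2 h1 h1' h2 h2' i
    linarith
  refine (Finset.sum_le_sum hb).trans ?_
  rw [Finset.sum_const, Finset.card_range, nsmul_eq_mul]
  push_cast
  apply le_of_eq
  ring

theorem core (hA : IsSelfAdjoint A) (hB : IsSelfAdjoint B) (hAB : Commute A B)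
    {v : ℤ × ℤ → K} (hv : Orthonormal ℂ v) (hs : Summable fun p => DD A B v p ^ 2) : False := by
  -- choose the tail
  obtain ⟨s, hs'⟩ := (summable_iff_vanishing_norm.1 hs) ((1/1000:ℝ)^2) (by norm_num)
  obtain ⟨d0, hd0⟩ : ∃ d0 : ℕ, ∀ p ∈ s, |p.1| < d0 ∧ |p.2| < d0 := by
    refine ⟨s.sup (fun p => (|p.1| + |p.2| + 1).toNat) , fun p hp => ?_⟩
    have := Finset.le_sup (f := fun p : ℤ × ℤ => (|p.1| + |p.2| + 1).toNat) hp
    have h1 := abs_nonneg p.1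
    have h2 := abs_nonneg p.2
    constructor <;> omega
  set d := d0 + 2 with hd
  have ht : ∀ S : Finset (ℤ × ℤ), (∀ p ∈ S, Far d p) → ∑ p ∈ S, DD A B v p ^ 2 ≤ (1/1000:ℝ) ^ 2 := by
    intro S hS
    have hdisj : Disjoint S s := by
      rw [Finset.disjoint_left]
      intro p hpS hps
      have h1 := hS p hpS
      have h2 := hd0 p hps
      rcases h1 with h | h
      · have : (d:ℤ) = d0 + 2 := by rw [hd]; push_cast; ring
        omega
      · have : (d:ℤ) = d0 + 2 := by rw [hd]; push_cast; ring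
        omega
    have := hs' S hdisj
    rw [Real.norm_of_nonneg (Finset.sum_nonneg fun p _ => sq_nonneg _)] at this
    exact this.le
  have hd1 : 1 ≤ d := by omega
  have hsmall : ∀ p, Far d p → DD A B v p ≤ 1/32 := by
    intro p hp
    have := ht {p} (by intro q hq; rw [Finset.mem_singleton] at hq; rw [hq]; exact hp)
    rw [Finset.sum_singleton] at this
    have h0 := DD_nonneg (A := A) (B := B) v p
    have : DD A B v p ≤ 1/1000 := by
      exact (abs_le_of_sq_le_sq' this (by norm_num)).2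
    linarith
  have hsqrt : Real.sqrt (RR d).card = 2 * (d:ℝ) - 1 := by
    rw [card_RR d hd1]
    apply Real.sqrt_sq
    have : (1:ℝ) ≤ d := by exact_mod_cast hd1
    linarith
  have hlow : ∀ p ∈ RR d, 1/2 ≤ FF A B v (p.1+0+4*d, p.2+0+4*d)
      + FF A B v (p.1+2+4*d, p.2+0+4*d) + FF A B v (p.1+0+4*d, p.2+2+4*d)
      + FF A B v (p.1+2+4*d, p.2+2+4*d) := by
    intro p hp
    rw [mem_RR] at hp
    have hf : ∀ a b : ℤ, 0 ≤ a → Far d (p.1 + 4*d + a, b) := by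
      intro a b ha
      left
      simp only
      rw [abs_of_nonneg (by omega)]
      omega
    have := lower_bound hA hB hAB hv (p.1+4*d) (p.2+4*d) (by omega) (by omega)
      (hsmall _ (by have := hf 0 (p.2+4*d) le_rfl; rwa [add_zero] at this))
      (hsmall _ (hf 2 _ (by norm_num)))
      (hsmall _ (by have := hf 0 (p.2+4*d+2) le_rfl; rwa [add_zero] at this))
      (hsmall _ (hf 2 _ (by norm_num)))
    have e1 : p.1 + 0 + 4*(d:ℤ) = p.1 + 4*d := by ring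
    have e2 : p.2 + 0 + 4*(d:ℤ) = p.2 + 4*d := by ring
    have e3 : p.1 + 2 + 4*(d:ℤ) = p.1 + 4*d + 2 := by ring
    have e4 : p.2 + 2 + 4*(d:ℤ) = p.2 + 4*d + 2 := by ring
    rw [e1, e2, e3, e4]
    exact this
  have hsumlow : ((RR d).card : ℝ) * (1/2) ≤ ∑ p ∈ RR d, (FF A B v (p.1+0+4*d, p.2+0+4*d)
      + FF A B v (p.1+2+4*d, p.2+0+4*d) + FF A B v (p.1+0+4*d, p.2+2+4*d)
      + FF A B v (p.1+2+4*d, p.2+2+4*d)) := by
    have := Finset.card_nsmul_le_sum (RR d) _ (1/2 : ℝ) hlow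
    rwa [nsmul_eq_mul] at this
  simp only [Finset.sum_add_distrib] at hsumlow
  have f1 := F_sum hA hB hAB v d hd1 (1/1000) (by norm_num) ht 0 0 (by norm_num) (by norm_num)
    (by norm_num) (by norm_num)
  have f2 := F_sum hA hB hAB v d hd1 (1/1000) (by norm_num) ht 2 0 (by norm_num) (by norm_num)
    (by norm_num) (by norm_num)
  have f3 := F_sum hA hB hAB v d hd1 (1/1000) (by norm_num) ht 0 2 (by norm_num) (by norm_num)
    (by norm_num) (by norm_num)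
  have f4 := F_sum hA hB hAB v d hd1 (1/1000) (by norm_num) ht 2 2 (by norm_num) (by norm_num)
    (by norm_num) (by norm_num)
  rw [hsqrt] at f1 f2 f3 f4
  rw [card_RR d hd1] at hsumlow
  have hdr : (1:ℝ) ≤ d := by exact_mod_cast hd1
  nlinarith

end

end Pool.Agent.Helper4.Voic
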