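import Pool.Agent.Helper4.Voic.Final

set_option autoImplicit false

namespace Pool.Agent.Helper4.Voic

open scoped InnerProductSpace ComplexOrder

noncomputable section

/-- the sign on the vertical bond above p -/
def sg (p : ℤ × ℤ) : ℂ := if 1 ≤ p.1 ∧ p.2 = 0 then -1 else 1

theorem sg_or (p : ℤ × ℤ) : sg p = 1 ∨ sg p = -1 := by
  unfold sg; split_ifs <;> simp

theorem g_sg (j k : ℤ) : ((g (j,k+1) : ℝ) : ℂ) = (g (j,k) : ℂ) * sg (j,k) := by
  unfold g sg
  simp only
  by_cases h1 : 1 ≤ j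
  · by_cases h2 : k = 0
    · subst h2
      rw [if_pos ⟨h1, by norm_num⟩, if_neg (by rintro ⟨_, h⟩; omega), if_pos ⟨h1, rfl⟩]
      push_cast; ring
    · by_cases h3 : 1 ≤ k
      · rw [if_pos ⟨h1, by omega⟩, if_pos ⟨h1, h3⟩, if_neg (by rintro ⟨_, h⟩; exact h2 h)]
        push_cast; ring
      · rw [if_neg (by rintro ⟨_, h⟩; omega), if_neg (by rintro ⟨_, h⟩; omega),
          if_neg (by rintro ⟨_, h⟩; exact h2 h)]
        push_cast; ring
  · rw [if_neg (by rintro ⟨h, _⟩; exact h1 h), if_neg (by rintro ⟨h, _⟩; exact h1 h),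
      if_neg (by rintro ⟨h, _⟩; exact h1 h)]
    push_cast; ring

theorem g_or (p : ℤ × ℤ) : g p = 1 ∨ g p = -1 := by
  unfold g; split_ifs <;> simp

theorem g_sg' (j k : ℤ) : ((g (j,k-1) : ℝ) : ℂ) = (g (j,k) : ℂ) * sg (j,k-1) := by
  have h := g_sg j (k-1)
  rw [sub_add_cancel] at h
  rw [h]
  rcases sg_or (j,k-1) with h1 | h1 <;> rw [h1] <;> ring

variable {K : Type*} [NormedAddCommGroup K] [InnerProductSpace ℂ K] [CompleteSpace K]

/-- real part -/
def reA (N : K →L[ℂ] K) : K →L[ℂ] K := (1/2 : ℂ) • (N + star N)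

/-- imaginary part -/
def imB (N : K →L[ℂ] K) : K →L[ℂ] K := (-(Complex.I/2) : ℂ) • (N - star N)

theorem reA_sa (N : K →L[ℂ] K) : IsSelfAdjoint (reA N) := by
  unfold reA
  rw [isSelfAdjoint_iff, star_smul, star_add, star_star, add_comm]
  congr 1
  simp

theorem imB_sa (N : K →L[ℂ] K) : IsSelfAdjoint (imB N) := by
  unfold imB
  rw [isSelfAdjoint_iff, star_smul, star_sub, star_star]
  have : star (-(Complex.I/2) : ℂ) = Complex.I/2 := by
    simp [div_eq_mul_inv]
  rw [this, ← neg_sub N (star N), smul_neg, neg_smul]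

theorem re_im_comm (N : K →L[ℂ] K) (hN : star N * N = N * star N) :
    Commute (reA N) (imB N) := by
  unfold reA imB
  apply Commute.smul_left
  apply Commute.smul_right
  unfold Commute SemiconjBy
  simp only [add_mul, mul_add, sub_mul, mul_sub]
  rw [hN]
  abel

/-- horizontal average -/
def Xv (v : ℤ × ℤ → K) (p : ℤ × ℤ) : K := (1/2 : ℂ) • (v (p.1+1, p.2) + v (p.1-1, p.2))

/-- vertical signed average -/
def Yv (v : ℤ × ℤ → K) (p : ℤ × ℤ) : K :=
  (1/2 : ℂ) • (sg p • v (p.1, p.2+1) + sg (p.1, p.2-1) • v (p.1, p.2-1))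

theorem half_real (z : K) : (1/2 : ℝ) • z = (1/2 : ℂ) • z := by
  rw [← Complex.coe_smul]
  norm_num

theorem dx_eq (A : K →L[ℂ] K) (v : ℤ × ℤ → K) (p : ℤ × ℤ) :
    dx A v p = ‖Xv v p - A (v p)‖ := by
  obtain ⟨j, k⟩ := p
  unfold dx defect Xv
  rw [half_real]

theorem dy_eq (B : K →L[ℂ] K) (v : ℤ × ℤ → K) (p : ℤ × ℤ) :
    dy B v p = ‖Yv v p - B (v p)‖ := by
  obtain ⟨j, k⟩ := p
  have h : defect B (fun i => g (j, i) • v (j, i)) k
      = (g (j,k) : ℂ) • (Yv v (j,k) - B (v (j,k))) := by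
    unfold defect Yv
    simp only [← Complex.coe_smul]
    rw [g_sg, g_sg']
    simp only [map_smul, smul_sub, smul_add, smul_smul]
    congr 1
    congr 1
    · congr 1
      push_cast
      ring
    · congr 1
      push_cast
      ring
  unfold dy
  simp only
  rw [h, norm_smul]
  have : ‖((g (j,k) : ℝ) : ℂ)‖ = 1 := by
    rcases g_or (j,k) with h1 | h1 <;> rw [h1] <;> simp
  rw [this, one_mul]

theorem core2 (N : K →L[ℂ] K) (hN : star N * N = N * star N) {v : ℤ × ℤ → K}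
    (hv : Orthonormal ℂ v)
    (s1 : Summable fun p => ‖(Xv v p + Complex.I • Yv v p) - N (v p)‖ ^ 2)
    (s2 : Summable fun p => ‖(Xv v p - Complex.I • Yv v p) - (star N) (v p)‖ ^ 2) : False := by
  apply core (reA_sa N) (imB_sa N) (re_im_comm N hN) hv
  have hsum : Summable fun p => 2 * (‖(Xv v p + Complex.I • Yv v p) - N (v p)‖ ^ 2
      + ‖(Xv v p - Complex.I • Yv v p) - (star N) (v p)‖ ^ 2) := (s1.add s2).mul_left 2
  refine Summable.of_nonneg_of_le (fun p => sq_nonneg _) (fun p => ?_) hsum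
  set a := (Xv v p + Complex.I • Yv v p) - N (v p) with ha
  set b := (Xv v p - Complex.I • Yv v p) - (star N) (v p) with hb
  have e1 : Xv v p - reA N (v p) = (1/2 : ℂ) • (a + b) := by
    rw [ha, hb]
    unfold reA
    rw [smul_apply, add_apply]
    module
  have e2 : Yv v p - imB N (v p) = (-(Complex.I/2) : ℂ) • (a - b) := by
    rw [ha, hb]
    unfold imB
    rw [smul_apply, sub_apply]
    have h3 : (Xv v p + Complex.I • Yv v p) - N (v p) - ((Xv v p - Complex.I • Yv v p)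
      - (star N) (v p)) = (2 * Complex.I) • Yv v p - (N (v p) - (star N) (v p)) := by
      module
    have h : (-(Complex.I/2)) * (2 * Complex.I) = 1 := by
      have := Complex.I_mul_I
      linear_combination (-1 : ℂ) * this
    rw [h3, smul_sub (-(Complex.I/2)) ((2 * Complex.I) • Yv v p), smul_smul, h, one_smul]
  have n1 : ‖Xv v p - reA N (v p)‖ ≤ 1/2 * (‖a‖ + ‖b‖) := by
    rw [e1, norm_smul]
    have : ‖(1/2:ℂ)‖ = 1/2 := by norm_num
    rw [this]
    exact mul_le_mul_of_nonneg_left (norm_add_le _ _) (by norm_num)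
  have n2 : ‖Yv v p - imB N (v p)‖ ≤ 1/2 * (‖a‖ + ‖b‖) := by
    rw [e2, norm_smul]
    have : ‖(-(Complex.I/2):ℂ)‖ = 1/2 := by
      rw [norm_neg, norm_div, Complex.norm_I]
      norm_num
    rw [this]
    exact mul_le_mul_of_nonneg_left (norm_sub_le _ _) (by norm_num)
  have h1 : DD (reA N) (imB N) v p ≤ ‖a‖ + ‖b‖ := by
    unfold DD
    rw [dx_eq, dy_eq]
    linarith
  have h0 := DD_nonneg (A := reA N) (B := imB N) v p
  have h2 : DD (reA N) (imB N) v p ^ 2 ≤ (‖a‖ + ‖b‖) ^ 2 := pow_le_pow_left₀ h0 h1 2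
  refine h2.trans ?_
  nlinarith [sq_nonneg (‖a‖ - ‖b‖)]

end

end Pool.Agent.Helper4.Voic
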