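import Pool.Agent.Helper4.Voic.Cheb

set_option autoImplicit false

namespace Pool.Agent.Helper4.Voic

open scoped InnerProductSpace ComplexOrder

noncomputable section

variable {K : Type*} [NormedAddCommGroup K] [InnerProductSpace ℂ K] [CompleteSpace K]
variable {A B : K →L[ℂ] K}

theorem mapp (A B : K →L[ℂ] K) (x : K) : (A * B) x = A (B x) := rfl

theorem rec_solve (hA : IsSelfAdjoint A) (r f : ℕ → K) (h0 : r 0 = 0) (h1 : r 1 = f 0)
    (h2 : ∀ n, r (n+2) = (2:ℝ) • A (r (n+1)) - r n + f (n+1)) (n : ℕ) :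
    r n = ∑ i ∈ Finset.range n, opU A (n - i) (f i) := by
  induction n using Nat.twoStepInduction with
  | zero => simp [h0]
  | one => simp [h1, opU_one hA]
  | more n ih1 ih2 =>
    rw [h2, ih1, ih2, Finset.sum_range_succ _ (n+1), Finset.sum_range_succ _ n,
      Finset.sum_range_succ _ n]
    have e1 : ∑ x ∈ Finset.range n, (opU A (n + 2 - x)) (f x)
        = (2:ℝ) • A (∑ x ∈ Finset.range n, (opU A (n + 1 - x)) (f x))
          - ∑ x ∈ Finset.range n, (opU A (n - x)) (f x) := by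
      rw [map_sum, Finset.smul_sum, ← Finset.sum_sub_distrib]
      apply Finset.sum_congr rfl
      intro i hi
      have hi' : i < n := Finset.mem_range.1 hi
      have a1 : n + 2 - i = (n - i) + 2 := by omega
      have a2 : n + 1 - i = (n - i) + 1 := by omega
      rw [a1, a2, opU_add_two hA]
      simp
    rw [e1]
    have a3 : n + 2 - n = 0 + 2 := by omega
    have a4 : n + 1 - n = 1 := by omega
    have a5 : n + 2 - (n + 1) = 1 := by omega
    rw [a3, a4, a5, opU_add_two hA, opU_one hA, opU_zero]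
    simp
    abel

/-- the defect of the sequence w from being a cosine sequence of A -/
def defect (A : K →L[ℂ] K) (w : ℤ → K) (k : ℤ) : K :=
  (1/2 : ℝ) • (w (k+1) + w (k-1)) - A (w k)

theorem line_bound (hA : IsSelfAdjoint A) (w : ℤ → K) (k : ℤ) (n : ℕ) :
    ‖opC A ((1/2 : ℝ) • (w (k+n) + w (k-n)) - opT A n (w k))‖
      ≤ ∑ i ∈ Finset.range n, (‖defect A w (k+i)‖ + ‖defect A w (k-i)‖) := by
  set r : ℕ → K := fun n => (1/2 : ℝ) • (w (k+n) + w (k-n)) - opT A n (w k) with hr
  set f : ℕ → K := fun n => if n = 0 then defect A w k else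
    defect A w (k+n) + defect A w (k-n) with hf
  have h0 : r 0 = 0 := by
    simp only [hr]
    rw [opT_zero hA]
    simp only [Nat.cast_zero, add_zero, sub_zero, one_apply_eq_self]
    rw [← two_smul ℝ (w k), smul_smul]
    norm_num
  have h1 : r 1 = f 0 := by
    simp only [hr, hf, if_true, defect]
    rw [opT_one hA]
    simp
  have h2 : ∀ n, r (n+2) = (2:ℝ) • A (r (n+1)) - r n + f (n+1) := by
    intro n
    simp only [hr, hf, defect]
    rw [opT_add_two hA, if_neg (Nat.succ_ne_zero n)]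
    have b1 : k + ((n+1 : ℕ):ℤ) + 1 = k + ((n+2:ℕ):ℤ) := by push_cast; ring
    have b2 : k + ((n+1 : ℕ):ℤ) - 1 = k + (n:ℤ) := by push_cast; ring
    have b3 : k - ((n+1 : ℕ):ℤ) + 1 = k - (n:ℤ) := by push_cast; ring
    have b4 : k - ((n+1 : ℕ):ℤ) - 1 = k - ((n+2:ℕ):ℤ) := by push_cast; ring
    rw [b1, b2, b3, b4]
    have hs : ∀ (c : ℝ) (z : K), A (c • z) = c • A z := fun c z => by
      rw [← Complex.coe_smul, map_smul, Complex.coe_smul]
    simp only [map_sub, map_add, sub_apply, smul_apply, mapp, hs]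
    module
  have hsolve := rec_solve hA r f h0 h1 h2 n
  have hrn : r n = (1/2 : ℝ) • (w (k+n) + w (k-n)) - opT A n (w k) := rfl
  rw [← hrn, hsolve, map_sum]
  refine (norm_sum_le _ _).trans (Finset.sum_le_sum ?_)
  intro i _
  have hb : ‖opC A (opU A (n - i) (f i))‖ ≤ ‖f i‖ := by
    have := (opC A * opU A (n-i)).le_opNorm (f i)
    refine this.trans ?_
    calc ‖opC A * opU A (n - i)‖ * ‖f i‖ ≤ 1 * ‖f i‖ :=
          mul_le_mul_of_nonneg_right (norm_opC_opU_le _) (norm_nonneg _)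
      _ = ‖f i‖ := one_mul _
  refine hb.trans ?_
  simp only [hf]
  split_ifs with hi
  · subst hi
    simp only [Nat.cast_zero, add_zero, sub_zero]
    linarith [norm_nonneg (defect A w k)]
  · exact norm_add_le _ _

/-- quadratic form lower bound -/
theorem form_lower (hA : IsSelfAdjoint A) (hB : IsSelfAdjoint B) (hAB : Commute A B) (u : K) :
    ‖u‖ ^ 2 - ‖A u‖ ^ 2 - ‖B u‖ ^ 2 ≤ ‖opC A (opC B u)‖ * ‖u‖ := by
  have hC0 : (0 : K →L[ℂ] K) ≤ 1 - opC A := sub_nonneg.2 (opC_le_one hA)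
  have hE0 : (0 : K →L[ℂ] K) ≤ 1 - opC B := sub_nonneg.2 (opC_le_one hB)
  have hcomm : Commute (1 - opC A) (1 - opC B) :=
    ((Commute.one_left _).sub_left ((Commute.one_right _).sub_right (opC_commute hAB)))
  have hprod := Commute.mul_nonneg hC0 hE0 hcomm
  have h1 : (0 : K →L[ℂ] K) ≤ opC A - (1 - A * A) := sub_nonneg.2 (one_sub_sq_le hA)
  have h2 : (0 : K →L[ℂ] K) ≤ opC B - (1 - B * B) := sub_nonneg.2 (one_sub_sq_le hB)
  have hsum := add_nonneg (add_nonneg hprod h1) h2
  have hid : (1 - opC A) * (1 - opC B) + (opC A - (1 - A * A)) + (opC B - (1 - B * B))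
      = opC A * opC B - (1 - A * A - B * B) := by noncomm_ring
  rw [hid, ContinuousLinearMap.nonneg_iff_isPositive] at hsum
  have h3 := hsum.re_inner_nonneg_left u
  simp only [sub_apply, mapp, one_apply_eq_self, inner_sub_left, map_sub] at h3
  have hAA : RCLike.re ⟪A (A u), u⟫_ℂ = ‖A u‖ ^ 2 := by
    have := (ContinuousLinearMap.isSelfAdjoint_iff'.1 hA)
    rw [← ContinuousLinearMap.adjoint_inner_right A, this, inner_self_eq_norm_sq]
  have hBB : RCLike.re ⟪B (B u), u⟫_ℂ = ‖B u‖ ^ 2 := by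
    have := (ContinuousLinearMap.isSelfAdjoint_iff'.1 hB)
    rw [← ContinuousLinearMap.adjoint_inner_right B, this, inner_self_eq_norm_sq]
  rw [hAA, hBB, inner_self_eq_norm_sq] at h3
  have h4 : RCLike.re ⟪opC A (opC B u), u⟫_ℂ ≤ ‖opC A (opC B u)‖ * ‖u‖ :=
    re_inner_le_norm _ _
  linarith

end

end Pool.Agent.Helper4.Voic
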