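import Pool.Agent.Helper4.Voic.Core

set_option autoImplicit false

namespace Pool.Agent.Helper4.Voic

open scoped InnerProductSpace ComplexOrder

noncomputable section

variable {K : Type*} [NormedAddCommGroup K] [InnerProductSpace ℂ K] [CompleteSpace K]
variable {A B : K →L[ℂ] K}

omit [CompleteSpace K] in
theorem four_norm {v : ℤ × ℤ → K} (hv : Orthonormal ℂ v) (p1 p2 p3 p4 : ℤ × ℤ)
    (h12 : p1 ≠ p2) (h13 : p1 ≠ p3) (h14 : p1 ≠ p4) (h23 : p2 ≠ p3) (h24 : p2 ≠ p4)
    (h34 : p3 ≠ p4) (c : ℝ) (hc : 0 ≤ c) :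
    ‖c • (v p1 - v p2 - v p3 + v p4)‖ = 2 * c := by
  have ho := (orthonormal_iff_ite (𝕜 := ℂ)).1 hv
  have h1 : ‖v p1 - v p2 - v p3 + v p4‖ ^ 2 = 4 := by
    have : (‖v p1 - v p2 - v p3 + v p4‖ ^ 2 : ℝ)
        = RCLike.re (⟪v p1 - v p2 - v p3 + v p4, v p1 - v p2 - v p3 + v p4⟫_ℂ) :=
      (inner_self_eq_norm_sq (𝕜 := ℂ) _).symm
    rw [this]
    simp only [inner_add_left, inner_sub_left, inner_add_right, inner_sub_right, ho,
      h12, h13, h14, h23, h24, h34, h12.symm, h13.symm, h14.symm, h23.symm, h24.symm, h34.symm,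
      if_true, if_false]
    norm_num
  have h2 : ‖v p1 - v p2 - v p3 + v p4‖ = 2 := by
    have h0 := norm_nonneg (v p1 - v p2 - v p3 + v p4)
    nlinarith
  rw [norm_smul, h2, Real.norm_of_nonneg hc]
  ring

theorem real_smul_map (L : K →L[ℂ] K) (c : ℝ) (z : K) : L (c • z) = c • L z := by
  rw [← Complex.coe_smul, map_smul, Complex.coe_smul]

/-- value of F -/
def FF (A B : K →L[ℂ] K) (v : ℤ × ℤ → K) (p : ℤ × ℤ) : ℝ := ‖opC A (opC B (v p))‖

theorem lower_bound (hA : IsSelfAdjoint A) (hB : IsSelfAdjoint B) (hAB : Commute A B)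
    {v : ℤ × ℤ → K} (hv : Orthonormal ℂ v) (a b : ℤ) (ha : 2 ≤ a) (hb : 2 ≤ b)
    (h1 : DD A B v (a, b) ≤ 1/32) (h2 : DD A B v (a+2, b) ≤ 1/32)
    (h3 : DD A B v (a, b+2) ≤ 1/32) (h4 : DD A B v (a+2, b+2) ≤ 1/32) :
    1/2 ≤ FF A B v (a,b) + FF A B v (a+2,b) + FF A B v (a,b+2) + FF A B v (a+2,b+2) := by
  set u := (1/2:ℝ) • (v (a,b) - v (a+2,b) - v (a,b+2) + v (a+2,b+2)) with hu
  have hun : ‖u‖ = 1 := by
    rw [hu, four_norm hv]
    · norm_num
    all_goals first
      | (norm_num; done)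
      | (simp [Prod.ext_iff]; done)
  -- A u
  have eA : ∀ p : ℤ × ℤ, A (v p) = (1/2:ℝ) • (v (p.1+1,p.2) + v (p.1-1,p.2))
      - defect A (fun i => v (i, p.2)) p.1 := by
    intro p
    simp only [defect, Prod.mk.eta]
    abel
  have nA : ‖A u‖ ≤ 1/2 + 1/2 * (dx A v (a,b) + dx A v (a+2,b) + dx A v (a,b+2)
      + dx A v (a+2,b+2)) := by
    have e : A u = (1/4:ℝ) • (v (a-1,b) - v (a+3,b) - v (a-1,b+2) + v (a+3,b+2))
        - (1/2:ℝ) • (defect A (fun i => v (i, b)) a - defect A (fun i => v (i, b)) (a+2)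
          - defect A (fun i => v (i, b+2)) a + defect A (fun i => v (i, b+2)) (a+2)) := by
      rw [hu, real_smul_map]
      simp only [map_add, map_sub, eA]
      have c1 : a + 2 + 1 = a + 3 := by ring
      have c2 : a + 2 - 1 = a + 1 := by ring
      rw [c1, c2]
      module
    rw [e]
    refine (norm_sub_le _ _).trans ?_
    have n1 : ‖(1/4:ℝ) • (v (a-1,b) - v (a+3,b) - v (a-1,b+2) + v (a+3,b+2))‖ = 1/2 := by
      rw [four_norm hv]
      · norm_num
      all_goals first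
        | (norm_num; done)
        | (simp [Prod.ext_iff]; done)
        | (simp only [ne_eq, Prod.ext_iff, not_and]; intro h; omega)
    rw [n1]
    have n2 : ‖(1/2:ℝ) • (defect A (fun i => v (i, b)) a - defect A (fun i => v (i, b)) (a+2)
          - defect A (fun i => v (i, b+2)) a + defect A (fun i => v (i, b+2)) (a+2))‖
        ≤ 1/2 * (dx A v (a,b) + dx A v (a+2,b) + dx A v (a,b+2) + dx A v (a+2,b+2)) := by
      rw [norm_smul]
      have : ‖(1/2:ℝ)‖ = 1/2 := by norm_num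
      rw [this]
      apply mul_le_mul_of_nonneg_left _ (by norm_num)
      refine (norm_add_le _ _).trans (add_le_add ?_ le_rfl)
      refine (norm_sub_le _ _).trans (add_le_add ?_ le_rfl)
      exact norm_sub_le _ _
    linarith
  have eB : ∀ p : ℤ × ℤ, 1 ≤ p.1 → 2 ≤ p.2 → B (v p) = (1/2:ℝ) • (v (p.1,p.2+1)
      + v (p.1,p.2-1)) + defect B (fun i => g (p.1, i) • v (p.1, i)) p.2 := by
    intro p hp1 hp2
    have f1 : g (p.1, p.2) = -1 := by unfold g; rw [if_pos]; exact ⟨hp1, by simp only; omega⟩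
    have f2 : g (p.1, p.2+1) = -1 := by unfold g; rw [if_pos]; exact ⟨hp1, by simp only; omega⟩
    have f3 : g (p.1, p.2-1) = -1 := by unfold g; rw [if_pos]; exact ⟨hp1, by simp only; omega⟩
    simp only [defect, f1, f2, f3, Prod.mk.eta]
    have : B ((-1:ℝ) • v p) = - B (v p) := by rw [real_smul_map]; simp
    rw [this]
    module
  have nB : ‖B u‖ ≤ 1/2 + 1/2 * (dy B v (a,b) + dy B v (a+2,b) + dy B v (a,b+2)
      + dy B v (a+2,b+2)) := by
    have e : B u = (1/4:ℝ) • (v (a,b-1) - v (a+2,b-1) - v (a,b+3) + v (a+2,b+3))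
        + (1/2:ℝ) • (defect B (fun i => g (a, i) • v (a, i)) b
          - defect B (fun i => g (a+2, i) • v (a+2, i)) b
          - defect B (fun i => g (a, i) • v (a, i)) (b+2)
          + defect B (fun i => g (a+2, i) • v (a+2, i)) (b+2)) := by
      rw [hu, real_smul_map]
      simp only [map_add, map_sub]
      rw [eB (a,b) (by simp only; omega) (by simp only; omega),
        eB (a+2,b) (by simp only; omega) (by simp only; omega),
        eB (a,b+2) (by simp only; omega) (by simp only; omega),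
        eB (a+2,b+2) (by simp only; omega) (by simp only; omega)]
      have c1 : b + 2 + 1 = b + 3 := by ring
      have c2 : b + 2 - 1 = b + 1 := by ring
      simp only [c1, c2]
      module
    rw [e]
    refine (norm_add_le _ _).trans ?_
    have n1 : ‖(1/4:ℝ) • (v (a,b-1) - v (a+2,b-1) - v (a,b+3) + v (a+2,b+3))‖ = 1/2 := by
      rw [four_norm hv]
      · norm_num
      all_goals first
        | (norm_num; done)
        | (simp [Prod.ext_iff]; done)
        | (simp only [ne_eq, Prod.ext_iff, not_and]; intro h; omega)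
    rw [n1]
    have n2 : ‖(1/2:ℝ) • (defect B (fun i => g (a, i) • v (a, i)) b
          - defect B (fun i => g (a+2, i) • v (a+2, i)) b
          - defect B (fun i => g (a, i) • v (a, i)) (b+2)
          + defect B (fun i => g (a+2, i) • v (a+2, i)) (b+2))‖
        ≤ 1/2 * (dy B v (a,b) + dy B v (a+2,b) + dy B v (a,b+2) + dy B v (a+2,b+2)) := by
      rw [norm_smul]
      have : ‖(1/2:ℝ)‖ = 1/2 := by norm_num
      rw [this]
      apply mul_le_mul_of_nonneg_left _ (by norm_num)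
      refine (norm_add_le _ _).trans (add_le_add ?_ le_rfl)
      refine (norm_sub_le _ _).trans (add_le_add ?_ le_rfl)
      exact norm_sub_le _ _
    linarith
  have hform := form_lower hA hB hAB u
  rw [hun] at hform
  have x1 := dx_le (A := A) (B := B) v (a,b)
  have x2 := dx_le (A := A) (B := B) v (a+2,b)
  have x3 := dx_le (A := A) (B := B) v (a,b+2)
  have x4 := dx_le (A := A) (B := B) v (a+2,b+2)
  have y1 := dy_le (A := A) (B := B) v (a,b)
  have y2 := dy_le (A := A) (B := B) v (a+2,b)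
  have y3 := dy_le (A := A) (B := B) v (a,b+2)
  have y4 := dy_le (A := A) (B := B) v (a+2,b+2)
  have nA' : ‖A u‖ ≤ 9/16 := by linarith
  have nB' : ‖B u‖ ≤ 9/16 := by linarith
  have hA0 := norm_nonneg (A u)
  have hB0 := norm_nonneg (B u)
  have hlow : 1/4 ≤ ‖opC A (opC B u)‖ := by nlinarith
  have hup : ‖opC A (opC B u)‖ ≤ 1/2 * (FF A B v (a,b) + FF A B v (a+2,b)
      + FF A B v (a,b+2) + FF A B v (a+2,b+2)) := by
    rw [hu, real_smul_map, real_smul_map, norm_smul]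
    have : ‖(1/2:ℝ)‖ = 1/2 := by norm_num
    rw [this]
    apply mul_le_mul_of_nonneg_left _ (by norm_num)
    simp only [map_add, map_sub, FF]
    refine (norm_add_le _ _).trans (add_le_add ?_ le_rfl)
    refine (norm_sub_le _ _).trans (add_le_add ?_ le_rfl)
    exact norm_sub_le _ _
  linarith

/-- far from the origin in the sup norm -/
def Far (d : ℤ) (p : ℤ × ℤ) : Prop := d ≤ |p.1| ∨ d ≤ |p.2|

theorem shift_sum (D : ℤ × ℤ → ℝ) (hD : ∀ p, 0 ≤ D p) (d : ℤ) (ε : ℝ) (hε : 0 ≤ ε)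
    (ht : ∀ S : Finset (ℤ × ℤ), (∀ p ∈ S, Far d p) → ∑ p ∈ S, D p ^ 2 ≤ ε ^ 2)
    (R : Finset (ℤ × ℤ)) (s : ℤ × ℤ) (hs : ∀ p ∈ R, Far d (p + s)) :
    ∑ p ∈ R, D (p + s) ≤ ε * Real.sqrt R.card := by
  have h1 : ∑ p ∈ R, D (p + s) = ∑ p ∈ R.map (addRightEmbedding s), D p := by
    rw [Finset.sum_map]; rfl
  rw [h1]
  set S := R.map (addRightEmbedding s) with hS
  have hcard : S.card = R.card := Finset.card_map _
  have hfar : ∀ p ∈ S, Far d p := by
    intro p hp
    rw [hS, Finset.mem_map] at hp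
    obtain ⟨q, hq, rfl⟩ := hp
    exact hs q hq
  have h2 := ht S hfar
  have h3 : (∑ p ∈ S, D p) ^ 2 ≤ S.card * ∑ p ∈ S, D p ^ 2 := sq_sum_le_card_mul_sum_sq
  have h4 : (∑ p ∈ S, D p) ^ 2 ≤ (ε * Real.sqrt R.card) ^ 2 := by
    rw [mul_pow, Real.sq_sqrt (Nat.cast_nonneg _)]
    calc (∑ p ∈ S, D p) ^ 2 ≤ S.card * ∑ p ∈ S, D p ^ 2 := h3
      _ ≤ S.card * ε ^ 2 := mul_le_mul_of_nonneg_left h2 (Nat.cast_nonneg _)
      _ = ε ^ 2 * R.card := by rw [hcard]; ring
  exact abs_le_of_sq_le_sq' h4 (by positivity) |>.2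

end

end Pool.Agent.Helper4.Voic
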