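import Pool.Agent.Helper4.Voic.Block

set_option autoImplicit false

namespace Pool.Agent.Helper4.Voic

open scoped InnerProductSpace ComplexOrder

noncomputable section

/-- the orthonormal family in the double -/
def vv (p : ℤ × ℤ) : KK HH := J1 (bb p)

theorem vv_orthonormal : Orthonormal ℂ vv := J1_orthonormal bb.orthonormal

theorem N_J1 (N11 N12 N21 N22 : HH →L[ℂ] HH) (x : HH) :
    blk N11 N12 N21 N22 (J1 x) = J1 (N11 x) + J2 (N21 x) := by
  apply ext_KK
  · rw [P1_blk, P1J1, P2J1, map_zero, add_zero, map_add, P1J1, P1J2, add_zero]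
  · rw [P2_blk, P1J1, P2J1, map_zero, add_zero, map_add, P2J1, P2J2, zero_add]

theorem Xv_vv (p : ℤ × ℤ) : Xv vv p = J1 (X (bb p)) := by
  obtain ⟨j, k⟩ := p
  unfold Xv vv
  rw [X_apply, map_smul, map_add]

theorem Yv_vv (p : ℤ × ℤ) : Yv vv p = J1 (Y (bb p)) := by
  obtain ⟨j, k⟩ := p
  unfold Yv vv
  rw [Y_apply, map_smul, map_add, map_smul, map_smul]

theorem T_vv (p : ℤ × ℤ) : Xv vv p + Complex.I • Yv vv p = J1 (T (bb p)) := by
  rw [Xv_vv, Yv_vv]
  unfold T
  rw [add_apply, smul_apply, map_add, map_smul]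

theorem Ts_vv (p : ℤ × ℤ) : Xv vv p - Complex.I • Yv vv p = J1 ((star T) (bb p)) := by
  rw [Xv_vv, Yv_vv, star_T, sub_apply, smul_apply, map_sub, map_smul]

theorem no_partner (N11 N12 N21 N22 : HH →L[ℂ] HH)
    (h11 : star N11 * N11 + star N21 * N21 = N11 * star N11 + N12 * star N12)
    (h12 : star N11 * N12 + star N21 * N22 = N11 * star N21 + N12 * star N22)
    (h21 : star N12 * N11 + star N22 * N21 = N21 * star N11 + N22 * star N12)
    (h22 : star N12 * N12 + star N22 * N22 = N21 * star N21 + N22 * star N22)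
    (s1 : Summable fun p => ‖(T - N11) (bb p)‖ ^ 2)
    (s2 : Summable fun p => ‖(star (T - N11)) (bb p)‖ ^ 2)
    (s3 : Summable fun p => ‖N21 (bb p)‖ ^ 2)
    (s4 : Summable fun p => ‖(star N12) (bb p)‖ ^ 2) : False := by
  have key : ∀ (x y : HH), ‖J1 x - J2 y‖ ^ 2 ≤ 2 * (‖x‖ ^ 2 + ‖y‖ ^ 2) := by
    intro x y
    have h1 : ‖(J1 x : KK HH) - J2 y‖ ≤ ‖x‖ + ‖y‖ :=
      (norm_sub_le _ _).trans (add_le_add (le_of_eq (norm_J1 _)) (le_of_eq (norm_J2 _)))
    have h2 : ‖(J1 x : KK HH) - J2 y‖ ^ 2 ≤ (‖x‖ + ‖y‖) ^ 2 :=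
      pow_le_pow_left₀ (norm_nonneg _) h1 2
    refine h2.trans ?_
    nlinarith [sq_nonneg (‖x‖ - ‖y‖)]
  refine core2 (blk N11 N12 N21 N22) (blk_normal _ _ _ _ h11 h12 h21 h22) vv_orthonormal ?_ ?_
  · refine Summable.of_nonneg_of_le (fun p => sq_nonneg _) (fun p => ?_) ((s1.add s3).mul_left 2)
    have e : Xv vv p + Complex.I • Yv vv p - (blk N11 N12 N21 N22) (vv p)
        = J1 ((T - N11) (bb p)) - J2 (N21 (bb p)) := by
      rw [T_vv]
      unfold vv
      rw [N_J1, sub_apply, map_sub]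
      abel
    rw [e]
    exact key _ _
  · refine Summable.of_nonneg_of_le (fun p => sq_nonneg _) (fun p => ?_) ((s2.add s4).mul_left 2)
    have e : Xv vv p - Complex.I • Yv vv p - (star (blk N11 N12 N21 N22)) (vv p)
        = J1 ((star (T - N11)) (bb p)) - J2 ((star N12) (bb p)) := by
      rw [Ts_vv, star_blk]
      unfold vv
      rw [N_J1, star_sub, sub_apply, map_sub]
      abel
    rw [e]
    exact key _ _

end

end Pool.Agent.Helper4.Voic
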