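import Pool.Agent.Helper4.Voic.Gen

set_option autoImplicit false

namespace Pool.Agent.Helper4.Voic

open scoped InnerProductSpace ComplexOrder

noncomputable section

/-- the Hilbert space -/
abbrev HH : Type := lp (fun _ : ℤ × ℤ => ℂ) 2

/-- its standard basis -/
def bb : HilbertBasis (ℤ × ℤ) ℂ HH := HilbertBasis.ofRepr (LinearIsometryEquiv.refl ℂ HH)

/-- signed permuted basis -/
def sv (σ : Equiv.Perm (ℤ × ℤ)) (s : ℤ × ℤ → ℂ) (p : ℤ × ℤ) : HH := s p • bb (σ p)

theorem sv_orthonormal (σ : Equiv.Perm (ℤ × ℤ)) (s : ℤ × ℤ → ℂ) (hs : ∀ p, s p = 1 ∨ s p = -1) :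
    Orthonormal ℂ (sv σ s) := by
  have hb := bb.orthonormal
  rw [orthonormal_iff_ite] at hb ⊢
  intro p q
  unfold sv
  rw [inner_smul_left, inner_smul_right, hb]
  by_cases h : p = q
  · subst h
    simp only [if_true]
    rcases hs p with h1 | h1 <;> rw [h1] <;> simp
  · rw [if_neg (fun h' => h (σ.injective h')), if_neg h]
    simp

theorem sv_span (σ : Equiv.Perm (ℤ × ℤ)) (s : ℤ × ℤ → ℂ) (hs : ∀ p, s p = 1 ∨ s p = -1) :
    ⊤ ≤ (Submodule.span ℂ (Set.range (sv σ s))).topologicalClosure := by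
  rw [← bb.dense_span]
  apply Submodule.topologicalClosure_mono
  rw [Submodule.span_le]
  rintro _ ⟨p, rfl⟩
  have h1 : bb p = s (σ.symm p) • sv σ s (σ.symm p) := by
    unfold sv
    rw [smul_smul, Equiv.apply_symm_apply]
    rcases hs (σ.symm p) with h1 | h1 <;> rw [h1] <;> simp
  rw [h1]
  exact Submodule.smul_mem _ _ (Submodule.subset_span ⟨_, rfl⟩)

/-- signed permutation unitary -/
def UU (σ : Equiv.Perm (ℤ × ℤ)) (s : ℤ × ℤ → ℂ) (hs : ∀ p, s p = 1 ∨ s p = -1) :
    HH ≃ₗᵢ[ℂ] HH :=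
  bb.repr.trans (HilbertBasis.mk (sv_orthonormal σ s hs) (sv_span σ s hs)).repr.symm

theorem UU_apply (σ : Equiv.Perm (ℤ × ℤ)) (s : ℤ × ℤ → ℂ) (hs : ∀ p, s p = 1 ∨ s p = -1)
    (p : ℤ × ℤ) : UU σ s hs (bb p) = s p • bb (σ p) := by
  classical
  unfold UU
  rw [LinearIsometryEquiv.trans_apply, bb.repr_self, HilbertBasis.repr_symm_single,
    HilbertBasis.coe_mk]
  rfl

theorem UU_symm_apply (σ : Equiv.Perm (ℤ × ℤ)) (s : ℤ × ℤ → ℂ) (hs : ∀ p, s p = 1 ∨ s p = -1)
    (p : ℤ × ℤ) : (UU σ s hs).symm (bb p) = s (σ.symm p) • bb (σ.symm p) := by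
  have h := UU_apply σ s hs (σ.symm p)
  rw [Equiv.apply_symm_apply] at h
  have h2 : bb p = UU σ s hs (s (σ.symm p) • bb (σ.symm p)) := by
    rw [map_smul, h, smul_smul]
    rcases hs (σ.symm p) with h1 | h1 <;> rw [h1] <;> simp
  rw [h2, LinearIsometryEquiv.symm_apply_apply]

/-- half the sum of a unitary and its inverse -/
def ReU (U : HH ≃ₗᵢ[ℂ] HH) : HH →L[ℂ] HH :=
  (1/2 : ℂ) • ((U : HH →L[ℂ] HH) + (U.symm : HH →L[ℂ] HH))

theorem star_ReU (U : HH ≃ₗᵢ[ℂ] HH) : star (ReU U) = ReU U := by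
  unfold ReU
  rw [star_smul, star_add, LinearIsometryEquiv.star_eq_symm]
  have h2 : star (U.symm : HH →L[ℂ] HH) = (U : HH →L[ℂ] HH) := by
    rw [LinearIsometryEquiv.star_eq_symm]
    rfl
  rw [h2, add_comm]
  congr 1
  simp

/-- translation in the first direction -/
def σ1 : Equiv.Perm (ℤ × ℤ) where
  toFun p := (p.1 + 1, p.2)
  invFun p := (p.1 - 1, p.2)
  left_inv p := by simp
  right_inv p := by simp

/-- translation in the second direction -/
def σ2 : Equiv.Perm (ℤ × ℤ) where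
  toFun p := (p.1, p.2 + 1)
  invFun p := (p.1, p.2 - 1)
  left_inv p := by simp
  right_inv p := by simp

/-- X -/
def X : HH →L[ℂ] HH := ReU (UU σ1 (fun _ => 1) (fun _ => Or.inl rfl))

/-- Y -/
def Y : HH →L[ℂ] HH := ReU (UU σ2 sg sg_or)

theorem X_apply (j k : ℤ) : X (bb (j, k)) = (1/2 : ℂ) • (bb (j+1, k) + bb (j-1, k)) := by
  unfold X ReU
  rw [smul_apply, add_apply]
  have h1 : ((UU σ1 (fun _ => 1) (fun _ => Or.inl rfl) : HH ≃ₗᵢ[ℂ] HH) : HH →L[ℂ] HH) (bb (j,k))
      = bb (j+1,k) := by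
    have := UU_apply σ1 (fun _ => 1) (fun _ => Or.inl rfl) (j,k)
    rw [one_smul] at this
    exact this
  have h2 : ((UU σ1 (fun _ => 1) (fun _ => Or.inl rfl) : HH ≃ₗᵢ[ℂ] HH).symm : HH →L[ℂ] HH)
      (bb (j,k)) = bb (j-1,k) := by
    have := UU_symm_apply σ1 (fun _ => 1) (fun _ => Or.inl rfl) (j,k)
    rw [one_smul] at this
    exact this
  rw [h1, h2]

theorem Y_apply (j k : ℤ) : Y (bb (j, k)) = (1/2 : ℂ) • (sg (j,k) • bb (j, k+1)
    + sg (j,k-1) • bb (j, k-1)) := by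
  unfold Y ReU
  rw [smul_apply, add_apply]
  have h1 : ((UU σ2 sg sg_or : HH ≃ₗᵢ[ℂ] HH) : HH →L[ℂ] HH) (bb (j,k))
      = sg (j,k) • bb (j,k+1) := UU_apply σ2 sg sg_or (j,k)
  have h2 : ((UU σ2 sg sg_or : HH ≃ₗᵢ[ℂ] HH).symm : HH →L[ℂ] HH)
      (bb (j,k)) = sg (j,k-1) • bb (j,k-1) := UU_symm_apply σ2 sg sg_or (j,k)
  rw [h1, h2]

theorem star_X : star X = X := star_ReU _
theorem star_Y : star Y = Y := star_ReU _

/-- the almost normal operator -/
def T : HH →L[ℂ] HH := X + Complex.I • Y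

theorem star_T : star T = X - Complex.I • Y := by
  unfold T
  rw [star_add, star_smul, star_X, star_Y]
  simp [sub_eq_add_neg]

theorem comm_T : star T * T - T * star T = (2 * Complex.I) • (X * Y - Y * X) := by
  rw [star_T]
  unfold T
  have h : (X - Complex.I • Y) * (X + Complex.I • Y) - (X + Complex.I • Y) * (X - Complex.I • Y)
      = (2 : ℂ) • (X * (Complex.I • Y) - (Complex.I • Y) * X) := by
    rw [two_smul]
    generalize Complex.I • Y = Z
    noncomm_ring
  rw [h, mul_smul_comm, smul_mul_assoc, ← smul_sub, smul_smul]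

/-- the four sites -/
def F4 : Finset (ℤ × ℤ) := {(0,0), (0,1), (1,0), (1,1)}

theorem comm_apply (j k : ℤ) (h : (j, k) ∉ F4) : (X * Y - Y * X) (bb (j,k)) = 0 := by
  rw [sub_apply, mapp, mapp, X_apply, Y_apply, map_smul, map_smul, map_add, map_add, map_smul,
    map_smul, X_apply, X_apply, Y_apply, Y_apply]
  have hF : ¬ ((j = 0 ∨ j = 1) ∧ (k = 0 ∨ k = 1)) := by
    intro h'
    apply h
    unfold F4
    rcases h' with ⟨h1 | h1, h2 | h2⟩ <;> subst h1 <;> subst h2 <;> decide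
  have e1 : sg (j,k) = sg (j+1,k) ∨ (j = 0 ∧ k = 0) := by
    by_cases hh : j = 0 ∧ k = 0
    · exact Or.inr hh
    · left
      unfold sg
      by_cases h1 : 1 ≤ j ∧ k = 0
      · rw [if_pos h1, if_pos ⟨by simp only; omega, h1.2⟩]
      · rw [if_neg h1, if_neg]
        rintro ⟨h2, h3⟩
        simp only at h2 h3
        omega
  have e2 : sg (j-1,k) = sg (j,k) ∨ (j = 1 ∧ k = 0) := by
    by_cases hh : j = 1 ∧ k = 0
    · exact Or.inr hh
    · left
      unfold sg
      by_cases h1 : 1 ≤ j ∧ k = 0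
      · rw [if_pos h1, if_pos ⟨by simp only; omega, h1.2⟩]
      · rw [if_neg h1, if_neg]
        rintro ⟨h2, h3⟩
        simp only at h2 h3
        omega
  have e3 : sg (j,k-1) = sg (j+1,k-1) ∨ (j = 0 ∧ k = 1) := by
    by_cases hh : j = 0 ∧ k = 1
    · exact Or.inr hh
    · left
      unfold sg
      by_cases h1 : 1 ≤ j ∧ k - 1 = 0
      · rw [if_pos h1, if_pos ⟨by simp only; omega, h1.2⟩]
      · rw [if_neg h1, if_neg]
        rintro ⟨h2, h3⟩
        simp only at h2 h3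
        omega
  have e4 : sg (j-1,k-1) = sg (j,k-1) ∨ (j = 1 ∧ k = 1) := by
    by_cases hh : j = 1 ∧ k = 1
    · exact Or.inr hh
    · left
      unfold sg
      by_cases h1 : 1 ≤ j ∧ k - 1 = 0
      · rw [if_pos h1, if_pos ⟨by simp only; omega, h1.2⟩]
      · rw [if_neg h1, if_neg]
        rintro ⟨h2, h3⟩
        simp only at h2 h3
        omega
  have f1 : sg (j,k) = sg (j+1,k) := by
    rcases e1 with h | h
    · exact h
    · exact absurd ⟨Or.inl h.1, Or.inl h.2⟩ hF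
  have f2 : sg (j-1,k) = sg (j,k) := by
    rcases e2 with h | h
    · exact h
    · exact absurd ⟨Or.inr h.1, Or.inl h.2⟩ hF
  have f3 : sg (j,k-1) = sg (j+1,k-1) := by
    rcases e3 with h | h
    · exact h
    · exact absurd ⟨Or.inl h.1, Or.inr h.2⟩ hF
  have f4 : sg (j-1,k-1) = sg (j,k-1) := by
    rcases e4 with h | h
    · exact h
    · exact absurd ⟨Or.inr h.1, Or.inr h.2⟩ hF
  rw [← f1, f2, ← f3, f4]
  module

theorem selfcomm_apply (p : ℤ × ℤ) (h : p ∉ F4) : (star T * T - T * star T) (bb p) = 0 := by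
  rw [comm_T, smul_apply, comm_apply p.1 p.2 h, smul_zero]

/-- projection on the four sites -/
def PF : HH →L[ℂ] HH := ∑ q ∈ F4, (innerSL ℂ (bb q)).smulRight (bb q)

theorem PF_apply (p : ℤ × ℤ) : PF (bb p) = if p ∈ F4 then bb p else 0 := by
  unfold PF
  rw [sum_apply]
  have ho := (orthonormal_iff_ite (𝕜 := ℂ)).1 bb.orthonormal
  have : ∀ q ∈ F4, ((innerSL ℂ (bb q)).smulRight (bb q)) (bb p)
      = if q = p then bb p else 0 := by
    intro q _
    rw [ContinuousLinearMap.smulRight_apply, innerSL_apply_apply, ho]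
    by_cases h : q = p
    · subst h; simp
    · rw [if_neg h, if_neg h, zero_smul]
  rw [Finset.sum_congr rfl this, Finset.sum_ite_eq' F4 p (fun _ => bb p)]

theorem ext_bb {L M : HH →L[ℂ] HH} (h : ∀ p, L (bb p) = M (bb p)) : L = M := by
  apply ContinuousLinearMap.ext_on (s := Set.range bb)
  · exact Submodule.dense_iff_topologicalClosure_eq_top.2 bb.dense_span
  · rintro _ ⟨p, rfl⟩
    exact h p

theorem selfcomm_factor : star T * T - T * star T = (star T * T - T * star T) * PF := by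
  apply ext_bb
  intro p
  rw [mapp, PF_apply]
  split_ifs with h
  · rfl
  · rw [map_zero]
    exact selfcomm_apply p h

theorem summable_of_zero_off (L : HH →L[ℂ] HH) (h : ∀ p ∉ F4, L (bb p) = 0) :
    Summable fun p => ‖L (bb p)‖ ^ 2 := by
  apply summable_of_ne_finset_zero (s := F4)
  intro p hp
  rw [h p hp]
  simp

instance : TopologicalSpace.SeparableSpace HH := by
  rw [← TopologicalSpace.isSeparable_univ_iff]
  have h1 : TopologicalSpace.IsSeparable (Set.range bb) := (Set.countable_range bb).isSeparable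
  have h2 := h1.span (R := ℂ)
  have h3 := h2.closure
  have h4 : closure ((Submodule.span ℂ (Set.range bb) : Submodule ℂ HH) : Set HH) = Set.univ := by
    rw [← Submodule.topologicalClosure_coe, bb.dense_span]
    rfl
  rwa [h4] at h3

end

end Pool.Agent.Helper4.Voic
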